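import Pool.Agent.Helper96.SE.St

set_option autoImplicit false

namespace Pool.Agent.Helper70.SE

open NumberField IsDedekindDomain Polynomial Filter Topology
open Pool.Agent.Helper96.SE Pool.Agent.Helper96.BC Pool.Agent.Helper95.TT Pool.Agent.Helper24.TF
  Pool.Agent.Helper95.WS
open scoped Classical

private theorem NP_of_squarefree {F : Type} [Field F] (n : ℕ) (hn : n.Prime) (h : F[X])
    (hd : 1 ≤ h.natDegree) (hs : Squarefree h) : NP n h := by
  have h0 : h ≠ 0 := by
    rintro rfl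
    simp at hd
  have hu : ¬ IsUnit h := by
    intro hu
    have := Polynomial.natDegree_eq_zero_of_isUnit hu
    omega
  obtain ⟨P, hP, f₁, hf⟩ := WfDvdMonoid.exists_irreducible_factor hu h0
  refine ⟨P, f₁, 1, hP, ?_, ?_, by rw [pow_one]; exact hf⟩
  · rintro ⟨g, hg⟩
    apply hP.not_isUnit
    apply hs P
    rw [hf, hg]
    exact ⟨g, by ring⟩
  · intro h1
    exact hn.one_lt.ne' (Nat.dvd_one.mp h1)

theorem hE8 : StE6 → StE7 → StE8 := by
  intro hE6 hE7 F _ _ n h hn hd hs
  obtain ⟨h71, h72, h73, h74⟩ := hE7 F n hn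
  have h0 : h ≠ 0 := by
    rintro rfl
    simp at hd
  have hNP := NP_of_squarefree n hn h hd hs
  have hmem : ∀ ψ : MulChar F ℂ, ψ ∈ XX F n ↔ ψ ^ n = 1 ∧ ψ ≠ 1 := by
    intro ψ
    unfold XX
    rw [Set.Finite.mem_toFinset]
    exact Iff.rfl
  have p1 : ∀ a : F, a ≠ 0 → ((tN n (C a * h) : ℤ) : ℂ) = - ∑ ψ ∈ XX F n, ψ a * SI n ψ h := by
    intro a ha
    have e1 : ((Nat.card {z : F × F // z.2 ^ n = (C a * h).eval z.1} : ℕ) : ℂ) =
        Fintype.card F + ∑ ψ ∈ XX F n, ψ a * ∑ x : F, ψ (h.eval x) := by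
      have e2 : Nat.card {z : F × F // z.2 ^ n = (C a * h).eval z.1} =
          ∑ x : F, Nat.card {z : F // z ^ n = (C a * h).eval x} := by
        rw [← Nat.card_sigma]
        exact Nat.card_congr (Equiv.subtypeProdEquivSigmaSubtype
          (fun (x : F) (z : F) => z ^ n = (C a * h).eval x))
      rw [e2]
      push_cast
      have e3 : ∀ x : F, ((Nat.card {z : F // z ^ n = (C a * h).eval x} : ℕ) : ℂ) =
          1 + ∑ ψ ∈ XX F n, ψ a * ψ (h.eval x) := by
        intro x
        rw [h71]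
        congr 1
        refine Finset.sum_congr rfl (fun ψ _ => ?_)
        rw [eval_mul, eval_C, map_mul]
      rw [Finset.sum_congr rfl (fun x _ => e3 x), Finset.sum_add_distrib, Finset.sum_comm]
      congr 1
      · simp
      · refine Finset.sum_congr rfl (fun ψ _ => ?_)
        rw [Finset.mul_sum]
    have hdeg : (C a * h).natDegree = h.natDegree := natDegree_C_mul ha
    have hlc : (C a * h).leadingCoeff = a * h.leadingCoeff := by
      rw [leadingCoeff_mul, leadingCoeff_C]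
    unfold tN ptN
    push_cast
    rw [e1, hdeg, hlc]
    have e4 : ((if n ∣ h.natDegree then Nat.card {z : F // z ^ n = a * h.leadingCoeff} else 1 : ℕ) : ℂ)
        = 1 + ∑ ψ ∈ XX F n, ψ a * (if n ∣ h.natDegree then ψ h.leadingCoeff else 0) := by
      by_cases hnd : n ∣ h.natDegree
      · simp only [hnd, if_true]
        rw [h71]
        congr 1
        refine Finset.sum_congr rfl (fun ψ _ => ?_)
        rw [map_mul]
      · simp [hnd]
    rw [Nat.card_eq_fintype_card]
    have e5 : ∑ ψ ∈ XX F n, ψ a * SI n ψ h = ∑ ψ ∈ XX F n, ψ a * ∑ x : F, ψ (h.eval x) +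
        ∑ ψ ∈ XX F n, ψ a * (if n ∣ h.natDegree then ψ h.leadingCoeff else 0) := by
      rw [← Finset.sum_add_distrib]
      refine Finset.sum_congr rfl (fun ψ _ => ?_)
      unfold SI
      ring
    rw [e5]
    push_cast at e4
    rw [e4]
    ring
  have p2 : ∀ ψ ∈ XX F n, ‖SI n ψ h‖ ≤ dd n h.natDegree * √(Fintype.card F) := by
    intro ψ hψ
    rw [hmem] at hψ
    obtain ⟨h61, h62⟩ := hE6 F ψ n h hn hψ.2 hψ.1 h0 hNP
    unfold SI dd
    by_cases hnd : n ∣ h.natDegree
    · simp only [hnd, if_true]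
      exact h62 hnd
    · simp only [hnd, if_false, add_zero]
      exact h61
  refine ⟨p1, p2, ?_⟩
  intro a ha
  have e1 : |(tN n (C a * h) : ℝ)| = ‖((tN n (C a * h) : ℤ) : ℂ)‖ := by
    rw [Complex.norm_intCast]
  rw [e1, p1 a ha, norm_neg]
  have e2 : ∀ ψ ∈ XX F n, ‖ψ a * SI n ψ h‖ ≤ dd n h.natDegree * √(Fintype.card F) := by
    intro ψ hψ
    rw [norm_mul, (h74 ψ hψ a a ha ha).2, one_mul]
    exact p2 ψ hψ
  calc ‖∑ ψ ∈ XX F n, ψ a * SI n ψ h‖ ≤ ∑ ψ ∈ XX F n, ‖ψ a * SI n ψ h‖ := norm_sum_le _ _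
    _ ≤ (XX F n).card • (dd n h.natDegree * √(Fintype.card F)) := Finset.sum_le_card_nsmul _ _ _ e2
    _ = ((XX F n).card : ℝ) * (dd n h.natDegree * √(Fintype.card F)) := by rw [nsmul_eq_mul]
    _ ≤ ((n - 1 : ℕ) : ℝ) * (dd n h.natDegree * √(Fintype.card F)) := by
        apply mul_le_mul_of_nonneg_right _ (by positivity)
        exact_mod_cast h72
    _ = gg n h.natDegree * √(Fintype.card F) := by
        unfold gg
        push_cast
        ring

end Pool.Agent.Helper70.SE
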