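import Pool.Agent.Helper96.SE.St
import Pool.Agent.Helper6.TF.M_F5

/-!
# Project SE, module O4: induction step for the mean of the number of solutions of `z^n = E(y)`
-/

set_option autoImplicit false

namespace Pool.Agent.Helper70.SE

open NumberField IsDedekindDomain Polynomial Filter Topology
open Pool.Agent.Helper96.SE Pool.Agent.Helper96.BC Pool.Agent.Helper95.TT Pool.Agent.Helper24.TF
  Pool.Agent.Helper95.WS
open Pool.Agent.Helper6.TF (finite_Kv card_Kv domain_Kv q_pos val_cons sum_bound card_pts sqrt_q)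
open scoped Classical

noncomputable section

variable {k : Type} [Field k] [NumberField k] {m : ℕ}

/-- number of solutions of `z^n = c` minus one -/
private def nu (v : Pr k) (n : ℕ) (c : Kv v) : ℝ := (Nat.card {z : Kv v // z ^ n = c} : ℝ) - 1

private theorem nu_facts (hE7 : StE7) (v : Pr k) (n : ℕ) (hn : n.Prime) :
    (∀ c : Kv v, |nu v n c| ≤ n) ∧
    (∀ c u : Kv v, u ≠ 0 → nu v n (c * u ^ n) = nu v n c) := by
  have hfin := finite_Kv v
  have hmax := v.isMaximal
  let _ : Field (Kv v) := Ideal.Quotient.field v.asIdeal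
  let _ : Fintype (Kv v) := Fintype.ofFinite _
  obtain ⟨-, -, h3, -⟩ := hE7 (Kv v) n hn
  refine ⟨?_, ?_⟩
  · intro c
    have h := h3 c
    have h1 : (Nat.card {z : Kv v // z ^ n = c} : ℝ) ≤ n := by exact_mod_cast h
    have h2 : (0 : ℝ) ≤ (Nat.card {z : Kv v // z ^ n = c} : ℝ) := by positivity
    have h4 : (1 : ℝ) ≤ n := by exact_mod_cast hn.one_lt.le
    unfold nu
    rw [abs_le]
    constructor <;> linarith
  · intro c u hu
    unfold nu
    congr 2
    refine Nat.card_congr
      { toFun := fun z => ⟨z.1 * u⁻¹, ?_⟩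
        invFun := fun z => ⟨z.1 * u, ?_⟩
        left_inv := ?_
        right_inv := ?_ }
    · have := z.2
      rw [mul_pow, this, inv_pow, mul_assoc, mul_inv_cancel₀ (pow_ne_zero n hu), mul_one]
    · have := z.2
      rw [mul_pow, this]
    · intro z
      apply Subtype.ext
      simp [hu]
    · intro z
      apply Subtype.ext
      simp [hu]

private theorem nu_sum (hE6 : StE6) (hE7 : StE7) (v : Pr k) [Fintype (Kv v)] (n : ℕ)
    (hn : n.Prime) (f : (Kv v)[X]) (hf : f ≠ 0) (hNP : NP n f) :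
    |∑ x : Kv v, nu v n (f.eval x)| ≤ n * f.natDegree * √(q v) := by
  have hfin := finite_Kv v
  have hmax := v.isMaximal
  let _ : Field (Kv v) := Ideal.Quotient.field v.asIdeal
  obtain ⟨h1, h2, -, -⟩ := hE7 (Kv v) n hn
  have e1 : ((∑ x : Kv v, nu v n (f.eval x) : ℝ) : ℂ) =
      ∑ ψ ∈ XX (Kv v) n, ∑ x : Kv v, ψ (f.eval x) := by
    rw [Finset.sum_comm]
    push_cast
    refine Finset.sum_congr rfl fun x _ => ?_
    unfold nu
    push_cast
    rw [h1 (f.eval x)]
    ring
  have e2 : |∑ x : Kv v, nu v n (f.eval x)| = ‖((∑ x : Kv v, nu v n (f.eval x) : ℝ) : ℂ)‖ := by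
    rw [Complex.norm_real, Real.norm_eq_abs]
  have hmem : ∀ ψ : MulChar (Kv v) ℂ, ψ ∈ XX (Kv v) n ↔ ψ ^ n = 1 ∧ ψ ≠ 1 := by
    intro ψ
    unfold XX
    rw [Set.Finite.mem_toFinset]
    exact Iff.rfl
  have hcard : (Fintype.card (Kv v) : ℝ) = q v := by
    rw [← Nat.card_eq_fintype_card, card_Kv]
  have e3 : ∀ ψ ∈ XX (Kv v) n, ‖∑ x : Kv v, ψ (f.eval x)‖ ≤ f.natDegree * √(q v) := by
    intro ψ hψ
    rw [hmem] at hψ
    have h6 := (hE6 (Kv v) ψ n f hn hψ.2 hψ.1 hf hNP).1
    rw [hcard] at h6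
    refine h6.trans ?_
    apply mul_le_mul_of_nonneg_right _ (Real.sqrt_nonneg _)
    have : f.natDegree - 1 ≤ f.natDegree := Nat.sub_le _ _
    exact_mod_cast this
  rw [e2, e1]
  calc ‖∑ ψ ∈ XX (Kv v) n, ∑ x : Kv v, ψ (f.eval x)‖
      ≤ ∑ ψ ∈ XX (Kv v) n, ‖∑ x : Kv v, ψ (f.eval x)‖ := norm_sum_le _ _
    _ ≤ (XX (Kv v) n).card • (f.natDegree * √(q v)) := Finset.sum_le_card_nsmul _ _ _ e3
    _ = ((XX (Kv v) n).card : ℝ) * (f.natDegree * √(q v)) := by rw [nsmul_eq_mul]
    _ ≤ (n : ℝ) * (f.natDegree * √(q v)) := by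
        apply mul_le_mul_of_nonneg_right _ (by positivity)
        have : (XX (Kv v) n).card ≤ n := h2.trans (Nat.sub_le _ _)
        exact_mod_cast this
    _ = n * f.natDegree * √(q v) := by ring

private theorem fiber_sumN (v : Pr k) [Fintype (Kv v)] (n : ℕ)
    (hb : ∀ c : Kv v, |nu v n c| ≤ n)
    (hmul : ∀ c u : Kv v, u ≠ 0 → nu v n (c * u ^ n) = nu v n c)
    (y : Fin m → Kv v) (δ : Py k m) (E P Q : (Py k m)[X]) (h : C δ ^ n * E = P * Q ^ n)
    (hδ : val v y δ ≠ 0) (hQ : val v y Q.leadingCoeff ≠ 0) :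
    |∑ x : Kv v, (nu v n ((fib E v y).eval x) - nu v n ((fib P v y).eval x))| ≤
      2 * n * Q.natDegree := by
  have := domain_Kv v
  have hQ0 : fib Q v y ≠ 0 := by
    intro h0
    apply hQ
    have := congrArg (fun p : (Kv v)[X] => p.coeff Q.natDegree) h0
    simpa [fib] using this
  have hc : (Nat.card {x : Kv v // (fib Q v y).eval x = 0} : ℝ) ≤ Q.natDegree := by
    rw [Nat.card_eq_fintype_card, Fintype.card_subtype]
    have h1 : (Finset.univ.filter fun x : Kv v => (fib Q v y).eval x = 0) ⊆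
        (fib Q v y).roots.toFinset := by
      intro x hx
      rw [Finset.mem_filter] at hx
      rw [Multiset.mem_toFinset, Polynomial.mem_roots hQ0]
      exact hx.2
    have h2 := Finset.card_le_card h1
    have h3 := Multiset.toFinset_card_le (fib Q v y).roots
    have h4 := Polynomial.card_roots' (fib Q v y)
    have h5 : (fib Q v y).natDegree ≤ Q.natDegree := Polynomial.natDegree_map_le
    exact_mod_cast h2.trans (h3.trans (h4.trans h5))
  have hs := sum_bound (fun x : Kv v => nu v n ((fib E v y).eval x) - nu v n ((fib P v y).eval x))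
    (fun x => (fib Q v y).eval x = 0) 0 (2 * n) le_rfl ?_ ?_
  · calc |∑ x : Kv v, (nu v n ((fib E v y).eval x) - nu v n ((fib P v y).eval x))| ≤ _ := hs
      _ ≤ 2 * n * Q.natDegree := by
        have h1 := mul_le_mul_of_nonneg_right hc (by positivity : (0 : ℝ) ≤ 2 * n)
        linarith
  · intro x hx
    have h1 : (fib E v y).eval x * (val v y δ) ^ n =
        (fib P v y).eval x * ((fib Q v y).eval x) ^ n := by
      have h2 := congrArg (fun p : (Py k m)[X] => (p.map (val v y)).eval x) h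
      simp only [Polynomial.map_mul, Polynomial.map_pow, Polynomial.map_C, Polynomial.eval_mul,
        Polynomial.eval_pow, Polynomial.eval_C] at h2
      simp only [fib]
      linear_combination h2
    have h2 := congrArg (nu v n) h1
    rw [hmul _ _ hδ, hmul _ _ hx] at h2
    show |nu v n ((fib E v y).eval x) - nu v n ((fib P v y).eval x)| ≤ 0
    rw [h2]
    simp
  · intro x _
    have h1 := abs_le.1 (hb ((fib E v y).eval x))
    have h2 := abs_le.1 (hb ((fib P v y).eval x))
    show |nu v n ((fib E v y).eval x) - nu v n ((fib P v y).eval x)| ≤ 2 * n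
    rw [abs_le]
    constructor <;> linarith [h1.1, h1.2, h2.1, h2.2]

private theorem avN_succ (v : Pr k) [Fintype (Kv v)] (n : ℕ) (E : Py k (m + 1)) :
    avN n E v = (∑ y : Fin m → Kv v, ∑ x : Kv v,
      nu v n ((fib (MvPolynomial.finSuccEquiv (𝓞 k) m E) v y).eval x)) /
        (q v : ℝ) ^ (m + 1) := by
  unfold avN
  rw [finsum_eq_sum_of_fintype]
  congr 1
  rw [← Fintype.sum_equiv (Fin.consEquiv (fun _ : Fin (m + 1) => Kv v))
    (fun p : Kv v × (Fin m → Kv v) =>
      nu v n ((fib (MvPolynomial.finSuccEquiv (𝓞 k) m E) v p.2).eval p.1)) _ ?_]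
  · rw [Fintype.sum_prod_type_right]
  · intro p
    rw [← val_cons]
    rfl

private theorem avN_succ_mul (v : Pr k) [Fintype (Kv v)] (n : ℕ) (E : Py k (m + 1)) :
    avN n E v * (q v : ℝ) ^ (m + 1) = ∑ y : Fin m → Kv v, ∑ x : Kv v,
      nu v n ((fib (MvPolynomial.finSuccEquiv (𝓞 k) m E) v y).eval x) := by
  rw [avN_succ, div_mul_cancel₀]
  have := q_pos v
  positivity

private theorem sum_x_absN (v : Pr k) [Fintype (Kv v)] (n : ℕ)
    (hb : ∀ c : Kv v, |nu v n c| ≤ n) (h : (Kv v)[X]) :
    |∑ x : Kv v, nu v n (h.eval x)| ≤ n * q v := by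
  calc |∑ x : Kv v, nu v n (h.eval x)| ≤ ∑ x : Kv v, |nu v n (h.eval x)| :=
        Finset.abs_sum_le_sum_abs _ _
    _ ≤ ∑ _x : Kv v, (n : ℝ) := Finset.sum_le_sum fun x _ => hb _
    _ = n * q v := by
      rw [Finset.sum_const, Finset.card_univ, ← Nat.card_eq_fintype_card, card_Kv, nsmul_eq_mul]
      ring

theorem hO4 : StA7 → StF1 → StE6 → StE7 → StO3 → StO4 := by
  intro hA7 hF1 hE6 hE7 hO3 k _ _ m n E hn hE hns
  set E' := MvPolynomial.finSuccEquiv (𝓞 k) m E with hE'
  have hE'0 : E' ≠ 0 := by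
    intro h
    apply hE
    exact (map_eq_zero_iff (MvPolynomial.finSuccEquiv (𝓞 k) m)
      (MvPolynomial.finSuccEquiv (𝓞 k) m).injective).1 h
  obtain ⟨δ, P, Q, hδ, hP, hQ, hPQ, hor⟩ := hO3 k m n E' hn hE'0
  have hlQ : Q.leadingCoeff ≠ 0 := Polynomial.leadingCoeff_ne_zero.2 hQ
  rcases hor with hd0 | ⟨P₂, hP₂, hgood⟩
  · obtain ⟨e, he⟩ : ∃ e : Py k m, P = C e := ⟨P.coeff 0, Polynomial.eq_C_of_natDegree_eq_zero hd0⟩
    have he0 : e ≠ 0 := by
      intro h
      apply hP
      rw [he, h, Polynomial.C_0]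
    obtain ⟨C₁, R₁, hC₁, hR₁, hbad⟩ := hF1 k m (δ * Q.leadingCoeff) (mul_ne_zero hδ hlQ)
    refine ⟨2 * n * Q.natDegree + 2 * n * C₁, R₁, hR₁, Or.inr ⟨e, he0, ?_, ?_⟩⟩
    · rintro ⟨s, hs⟩
      apply hns
      obtain ⟨a, b, hb, hab⟩ := IsFractionRing.div_surjective (A := Py k m) s
      have hb0 : b ≠ 0 := nonZeroDivisors.ne_zero hb
      have hb0' : algebraMap (Py k m) (Ky k m) b ≠ 0 := by
        rwa [Ne, FaithfulSMul.algebraMap_eq_zero_iff]
      have h1 : e * b ^ n = a ^ n := by
        apply FaithfulSMul.algebraMap_injective (Py k m) (Ky k m)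
        rw [map_mul, map_pow, map_pow, ← hs, ← hab, div_pow, div_mul_cancel₀]
        exact pow_ne_zero n hb0'
      have h2 : (C b * C δ) ^ n * E' = (C a * Q) ^ n := by
        have h3 : (C e : (Py k m)[X]) * C b ^ n = C a ^ n := by
          rw [← Polynomial.C_pow, ← Polynomial.C_pow, ← Polynomial.C_mul, h1]
        rw [he] at hPQ
        rw [mul_pow, mul_pow]
        linear_combination (C b) ^ n * hPQ + Q ^ n * h3
      have h4 := congrArg (MvPolynomial.finSuccEquiv (𝓞 k) m).symm h2
      rw [map_mul, map_pow, map_pow, hE', AlgEquiv.symm_apply_apply] at h4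
      set β := (MvPolynomial.finSuccEquiv (𝓞 k) m).symm (C b * C δ) with hβ
      set γ := (MvPolynomial.finSuccEquiv (𝓞 k) m).symm (C a * Q) with hγ
      have hβ0 : β ≠ 0 := by
        rw [hβ, Ne, map_eq_zero_iff _ (MvPolynomial.finSuccEquiv (𝓞 k) m).symm.injective]
        exact mul_ne_zero (Polynomial.C_ne_zero.2 hb0) (Polynomial.C_ne_zero.2 hδ)
      have hβ0' : algebraMap (Py k (m + 1)) (Ky k (m + 1)) β ≠ 0 := by
        rwa [Ne, FaithfulSMul.algebraMap_eq_zero_iff]
      refine ⟨algebraMap (Py k (m + 1)) (Ky k (m + 1)) γ /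
        algebraMap (Py k (m + 1)) (Ky k (m + 1)) β, ?_⟩
      have h5 := congrArg (algebraMap (Py k (m + 1)) (Ky k (m + 1))) h4
      rw [map_mul, map_pow, map_pow] at h5
      rw [div_pow, ← h5, mul_comm, mul_div_assoc, div_self (pow_ne_zero n hβ0'), mul_one]
    · intro v hv1
      obtain ⟨hnb, hmul⟩ := nu_facts hE7 v n hn
      have := finite_Kv v
      have := domain_Kv v
      let _ : Fintype (Kv v) := Fintype.ofFinite _
      have hb := hbad v hv1
      have hPe : ∀ (y : Fin m → Kv v), ∑ x : Kv v, nu v n ((fib P v y).eval x) =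
          q v * nu v n (val v y e) := by
        intro y
        have h1 : ∀ x : Kv v, (fib P v y).eval x = val v y e := by
          intro x
          rw [fib, he, Polynomial.map_C, Polynomial.eval_C]
        simp only [h1]
        rw [Finset.sum_const, Finset.card_univ, ← Nat.card_eq_fintype_card, card_Kv, nsmul_eq_mul]
      have hs := sum_bound (fun y : Fin m → Kv v =>
        ∑ x : Kv v, (nu v n ((fib E' v y).eval x) - nu v n ((fib P v y).eval x)))
        (fun y => val v y (δ * Q.leadingCoeff) = 0)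
        (2 * n * Q.natDegree) (2 * n * q v) (by positivity) ?_ ?_
      · have h1 : ∑ y : Fin m → Kv v,
            ∑ x : Kv v, (nu v n ((fib E' v y).eval x) - nu v n ((fib P v y).eval x)) =
            (avN n E v - avN n e v) * (q v : ℝ) ^ (m + 1) := by
          have hq := q_pos v
          have h2 : avN n e v * (q v : ℝ) ^ (m + 1) =
              ∑ y : Fin m → Kv v, (q v : ℝ) * nu v n (val v y e) := by
            rw [avN, finsum_eq_sum_of_fintype, ← Finset.mul_sum, pow_succ]
            have hq' : ((q v : ℝ) ^ m) ≠ 0 := by positivity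
            unfold nu
            field_simp
          rw [sub_mul, avN_succ_mul, h2, ← Finset.sum_sub_distrib]
          refine Finset.sum_congr rfl fun y _ => ?_
          rw [Finset.sum_sub_distrib, hPe y]
        rw [h1, card_pts] at hs
        have hqm : (0 : ℝ) < (q v : ℝ) ^ m := by
          have := q_pos v
          positivity
        rw [abs_mul, abs_of_nonneg (by positivity : (0 : ℝ) ≤ (q v : ℝ) ^ (m + 1)), pow_succ] at hs
        have h2 : (|avN n E v - avN n e v| * q v) * (q v : ℝ) ^ m ≤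
            (2 * n * Q.natDegree + 2 * n * C₁) * (q v : ℝ) ^ m := by
          have h3 := mul_le_mul_of_nonneg_left hb (by positivity : (0 : ℝ) ≤ 2 * n)
          linarith
        exact le_of_mul_le_mul_right h2 hqm
      · intro y hy
        simp only [map_mul, mul_eq_zero, not_or] at hy
        exact fiber_sumN v n hnb hmul y δ E' P Q hPQ hy.1 hy.2
      · intro y _
        show |∑ x : Kv v, (nu v n ((fib E' v y).eval x) - nu v n ((fib P v y).eval x))| ≤ _
        rw [Finset.sum_sub_distrib]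
        have h1 := abs_le.1 (sum_x_absN v n hnb (fib E' v y))
        have h2 := abs_le.1 (sum_x_absN v n hnb (fib P v y))
        rw [abs_le]
        constructor <;> linarith [h1.1, h1.2, h2.1, h2.2]
  · obtain ⟨C₁, R₁, hC₁, hR₁, hbad⟩ := hF1 k m (δ * Q.leadingCoeff * P₂)
      (mul_ne_zero (mul_ne_zero hδ hlQ) hP₂)
    refine ⟨n * P.natDegree + (2 * n * Q.natDegree + n * C₁), R₁, hR₁, Or.inl ?_⟩
    intro v hv1
    obtain ⟨hnb, hmul⟩ := nu_facts hE7 v n hn
    have := finite_Kv v
    have := domain_Kv v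
    let _ : Fintype (Kv v) := Fintype.ofFinite _
    have hb := hbad v hv1
    have hs := sum_bound (fun y : Fin m → Kv v => ∑ x : Kv v, nu v n ((fib E' v y).eval x))
      (fun y => val v y (δ * Q.leadingCoeff * P₂) = 0)
      (n * P.natDegree * √(q v) + 2 * n * Q.natDegree) (n * q v) (by positivity) ?_ ?_
    · rw [← avN_succ_mul, card_pts] at hs
      obtain ⟨hq1, hq2⟩ := sqrt_q v
      have hqm : (0 : ℝ) < (q v : ℝ) ^ m := by
        have := q_pos v
        positivity
      rw [abs_mul, abs_of_nonneg (by positivity : (0 : ℝ) ≤ (q v : ℝ) ^ (m + 1)), pow_succ] at hs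
      have h1 : |avN n E v| * q v ≤
          n * P.natDegree * √(q v) + 2 * n * Q.natDegree + n * C₁ := by
        have h2 : (|avN n E v| * q v) * (q v : ℝ) ^ m ≤
            (n * P.natDegree * √(q v) + 2 * n * Q.natDegree + n * C₁) * (q v : ℝ) ^ m := by
          have h3 := mul_le_mul_of_nonneg_left hb (by positivity : (0 : ℝ) ≤ n)
          linarith
        exact le_of_mul_le_mul_right h2 hqm
      have h3 : (|avN n E v| * √(q v)) * √(q v) ≤
          (n * P.natDegree + (2 * n * Q.natDegree + n * C₁)) * √(q v) := by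
        rw [mul_assoc, hq2]
        have h4 : (2 * n * Q.natDegree + n * C₁) * 1 ≤
            (2 * n * (Q.natDegree : ℝ) + n * C₁) * √(q v) :=
          mul_le_mul_of_nonneg_left hq1 (by positivity)
        linarith
      exact le_of_mul_le_mul_right h3 (by linarith)
    · intro y hy
      simp only [map_mul, mul_eq_zero, not_or] at hy
      obtain ⟨⟨hy1, hy2⟩, hy3⟩ := hy
      obtain ⟨hNP, hdeg⟩ := hgood v y hy3
      have h1 := fiber_sumN v n hnb hmul y δ E' P Q hPQ hy1 hy2
      have hf0 : fib P v y ≠ 0 := by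
        obtain ⟨p, f₁, a, hp, hpf, hna, hf⟩ := hNP
        rw [hf]
        have h0 : f₁ ≠ 0 := by
          rintro rfl
          exact hpf (dvd_zero p)
        exact mul_ne_zero (pow_ne_zero a hp.ne_zero) h0
      have h2 := nu_sum hE6 hE7 v n hn (fib P v y) hf0 hNP
      rw [hdeg] at h2
      rw [Finset.sum_sub_distrib] at h1
      have h4 := abs_sub_abs_le_abs_sub (∑ x : Kv v, nu v n ((fib E' v y).eval x))
        (∑ x : Kv v, nu v n ((fib P v y).eval x))
      show |∑ x : Kv v, nu v n ((fib E' v y).eval x)| ≤ _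
      linarith
    · intro y _
      exact sum_x_absN v n hnb _

end

end Pool.Agent.Helper70.SE
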